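import Pool.Agent.Helper4.CI.Goals

/-!
# S4: the relation between the zeta function and `W`
-/

namespace Mono.CI.S4

open Finset Mono Mono.CI

variable {N k : ℕ}

theorem ind_injective : Function.Injective (ind : Option (Fin k) → Fin k → ℤ) := by
  intro c c' h
  cases c with
  | none =>
    cases c' with
    | none => rfl
    | some j =>
      have := congrFun h j
      simp [ind] at this
  | some j =>
    have := congrFun h j
    simp only [ind, if_true] at this
    by_contra hne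
    rw [if_neg (fun h' => hne h'.symm)] at this
    exact one_ne_zero this

theorem lift_natAdd (c : Option (Fin k)) (u : Fin N → ℤ) (j : Fin k) :
    lift c u (Fin.natAdd N j) = ind c j := by
  simp [lift]

theorem mem_cols {ρ : Finset (Fin (N + k) → ℤ)} {c : Option (Fin k)} :
    c ∈ cols ρ ↔ ∃ v ∈ ρ, ∀ j, v (Fin.natAdd N j) = ind c j := by
  simp [cols]

theorem cols_mono {ρ τ : Finset (Fin (N + k) → ℤ)} (h : ρ ⊆ τ) : cols ρ ⊆ cols τ := by
  intro c hc
  rw [mem_cols] at *
  obtain ⟨v, hv, h1⟩ := hc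
  exact ⟨v, h hv, h1⟩

theorem cols_insert (ρ : Finset (Fin (N + k) → ℤ)) (c : Option (Fin k)) (u : Fin N → ℤ) :
    cols (insert (lift c u) ρ) = insert c (cols ρ) := by
  ext c'
  rw [mem_cols, mem_insert, mem_cols]
  constructor
  · rintro ⟨v, hv, h1⟩
    rcases mem_insert.mp hv with rfl | hv
    · left
      apply ind_injective
      funext j
      rw [← h1 j, lift_natAdd]
    · exact Or.inr ⟨v, hv, h1⟩
  · rintro (rfl | ⟨v, hv, h1⟩)
    · exact ⟨_, mem_insert_self _ _, fun j => lift_natAdd _ _ _⟩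
    · exact ⟨v, mem_insert_of_mem hv, h1⟩

theorem card_cols_le {ρ τ : Finset (Fin (N + k) → ℤ)} (h : ρ ⊆ τ)
    (hτ : ∀ v ∈ τ, ∃ c u, v = lift c u) :
    (cols τ).card + ρ.card ≤ (cols ρ).card + τ.card := by
  induction hn : (τ \ ρ).card generalizing ρ with
  | zero =>
    have : τ ⊆ ρ := by
      rw [card_eq_zero] at hn
      exact sdiff_eq_empty_iff_subset.mp hn
    rw [Subset.antisymm h this]
  | succ m ih =>
    obtain ⟨v, hv⟩ : (τ \ ρ).Nonempty := card_pos.mp (by omega)
    rw [mem_sdiff] at hv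
    obtain ⟨c, u, rfl⟩ := hτ v hv.1
    have h1 : insert (lift c u) ρ ⊆ τ := insert_subset hv.1 h
    have h2 : (τ \ insert (lift c u) ρ).card = m := by
      have h3 := card_sdiff_of_subset h1
      have h4 := card_sdiff_of_subset h
      have h5 := card_insert_of_notMem hv.2
      have h6 := card_le_card h1
      omega
    have h3 := ih h1 h2
    rw [cols_insert, card_insert_of_notMem hv.2] at h3
    have h4 := card_insert_le c (cols ρ)
    omega

theorem vol_eq (hI : VolNewColour) {ρ τ : Finset (Fin (N + k) → ℤ)} (h : ρ ⊆ τ)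
    (hτ : ∀ v ∈ τ, ∃ c u, v = lift c u) (hc : τ.card + (cols ρ).card = ρ.card + (cols τ).card) :
    vol τ = vol ρ := by
  induction hn : (τ \ ρ).card generalizing ρ with
  | zero =>
    have : τ ⊆ ρ := by
      rw [card_eq_zero] at hn
      exact sdiff_eq_empty_iff_subset.mp hn
    rw [Subset.antisymm h this]
  | succ m ih =>
    obtain ⟨v, hv⟩ : (τ \ ρ).Nonempty := card_pos.mp (by omega)
    rw [mem_sdiff] at hv
    obtain ⟨c, u, rfl⟩ := hτ v hv.1
    have h1 : insert (lift c u) ρ ⊆ τ := insert_subset hv.1 h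
    have h2 : (τ \ insert (lift c u) ρ).card = m := by
      have h3 := card_sdiff_of_subset h1
      have h4 := card_sdiff_of_subset h
      have h5 := card_insert_of_notMem hv.2
      have h6 := card_le_card h1
      omega
    have h3 := card_cols_le h1 hτ
    rw [cols_insert, card_insert_of_notMem hv.2] at h3
    have hcn : c ∉ cols ρ := by
      intro hc'
      rw [insert_eq_self.mpr hc'] at h3
      omega
    have h4 := ih h1 (by
      rw [cols_insert, card_insert_of_notMem hv.2, card_insert_of_notMem hcn]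
      omega) h2
    rw [h4]
    exact hI N k ρ c u (fun v hv => hτ v (h hv)) hcn

theorem mem_cay {A : Option (Fin k) → Finset (Fin N → ℤ)} {v : Fin (N + k) → ℤ}
    (hv : v ∈ cay A univ) : ∃ c u, v = lift c u := by
  simp only [cay, mem_biUnion, mem_univ, true_and, mem_image] at hv
  obtain ⟨c, u, _, rfl⟩ := hv
  exact ⟨c, u, rfl⟩

theorem zWC (h2 : CountC) (h3 : ComplSum) (hI : VolNewColour) (h5 : VolScale)
    (hS : ScaleRel) : ZWC := by
  classical
  intro N k A b L b' Z Φ' Φ hT hb T hAd w hw s hs hne hJ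
  have hdisj : Disjoint (cay A univ) Z := (hS N k A b L b' Z Φ' Φ hT).2.2.2.2.1
  rw [h2 N k A b L b' Z Φ' Φ hT hb T hAd s w]
  congr 1
  set H := Hset A Z with hH
  -- the common summand
  set t : Finset (Fin (N + k) → ℤ) → Finset (Fin (N + k) → ℤ) → ℝ := fun ρ F =>
    (-1) ^ ρ.card * (vol ρ : ℝ) ^ 2 * (if none ∈ cols ρ then -s else psi H F w) /
      ((idx (F : Set (Fin (N + k) → ℤ)) : ℝ) * (s + psi H F w) * ∏ u ∈ F \ ρ, crd F w u) with ht
  have hstep : ∀ ρ ∈ Φ.faces.filter (fun ρ => ρ ⊆ cay A univ),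
      gco s w ρ * ∑ τ ∈ Compl A Φ ρ, JsumC A T τ s w =
      ∑ F ∈ Φ.mx.filter (fun F => ρ ⊆ F), t ρ F := by
    intro ρ hρ
    rw [mem_filter] at hρ
    have e1 : ∑ τ ∈ Compl A Φ ρ, JsumC A T τ s w =
        (vol ρ : ℝ) * ∑ τ ∈ Compl A Φ ρ, Φ.Rsum H τ s w := by
      rw [mul_sum]
      refine sum_congr rfl fun τ hτ => ?_
      rw [Compl, mem_filter] at hτ
      obtain ⟨hτf, hρτ, hτA, hcol, hcard⟩ := hτ
      rw [hJ τ hτf hτA hcol, (h5 N k A b L b' Z Φ' Φ hT τ hτf hτA).1,
        vol_eq hI hρτ (fun v hv => mem_cay (hτA hv)) (by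
          rw [hcol, hcard]; simp)]
    rw [e1, h3 N k A b L b' Z Φ' Φ hT w hw s ρ hρ.1 hρ.2]
    have e2 : (∏ j ∈ univ.filter (fun j : Fin k => some j ∉ cols ρ), (w (Fin.natAdd N j))⁻¹) *
        (∏ j ∈ univ.filter (fun j : Fin k => some j ∉ cols ρ), w (Fin.natAdd N j)) = 1 := by
      rw [← prod_mul_distrib]
      exact prod_eq_one fun j _ => inv_mul_cancel₀ (hw.2 _)
    unfold gco
    calc _ = ((∏ j ∈ univ.filter (fun j : Fin k => some j ∉ cols ρ), (w (Fin.natAdd N j))⁻¹) *
        (∏ j ∈ univ.filter (fun j : Fin k => some j ∉ cols ρ), w (Fin.natAdd N j))) *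
        ((-1) ^ ρ.card * (vol ρ : ℝ) ^ 2 * (if none ∈ cols ρ then -s else 1) *
        ∑ F ∈ Φ.mx.filter (fun F => ρ ⊆ F),
          (if none ∈ cols ρ then 1 else psi H F w) /
            ((idx (F : Set (Fin (N + k) → ℤ)) : ℝ) * (s + psi H F w) *
              ∏ u ∈ F \ ρ, crd F w u)) := by ring
      _ = _ := by
        rw [e2, one_mul, mul_sum]
        refine sum_congr rfl fun F _ => ?_
        simp only [ht]
        split_ifs <;> ring
  rw [sum_congr rfl hstep]
  have hswap : ∑ ρ ∈ Φ.faces.filter (fun ρ => ρ ⊆ cay A univ),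
      ∑ F ∈ Φ.mx.filter (fun F => ρ ⊆ F), t ρ F =
      ∑ F ∈ Φ.mx, ∑ ρ ∈ (F \ Z).powerset, t ρ F := by
    refine sum_comm' fun ρ F => ?_
    simp only [mem_filter, mem_powerset]
    constructor
    · rintro ⟨⟨_, hρA⟩, hF, hρF⟩
      refine ⟨fun v hv => ?_, hF⟩
      rw [mem_sdiff]
      exact ⟨hρF hv, fun hvZ => (Finset.disjoint_left.mp hdisj) (hρA hv) hvZ⟩
    · rintro ⟨hρ, hF⟩
      have hρF : ρ ⊆ F := hρ.trans sdiff_subset
      refine ⟨⟨Φ.mem_faces.mpr ⟨F, hF, hρF⟩, fun v hv => ?_⟩, hF, hρF⟩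
      have h1 := mem_sdiff.mp (hρ hv)
      have h4 := Φ.mx_sub F hF h1.1
      rw [hT.vert, mem_union] at h4
      exact h4.resolve_right h1.2
  rw [hswap]
  unfold R0 W2 Wterm2
  rw [mul_sum, ← sum_sub_distrib]
  refine sum_congr rfl fun F hF => ?_
  have hF0 := hne F hF
  rw [sum_filter, mul_sum, mul_sum, mul_sum, ← sum_sub_distrib]
  refine sum_congr rfl fun ρ _ => ?_
  simp only [ht]
  set I : ℝ := (idx (F : Set (Fin (N + k) → ℤ)) : ℝ) with hI'
  set P : ℝ := ∏ u ∈ F \ ρ, crd F w u with hP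
  set q : ℝ := psi H F w with hq
  obtain ⟨D, hD⟩ : ∃ D, D = I * (s + q) := ⟨_, rfl⟩
  by_cases hc : none ∈ cols ρ
  · rw [if_pos hc, if_neg (not_not.mpr hc), ← hD]
    ring
  · rw [if_neg hc, if_pos hc]
    have e3 : q / (I * (s + q) * P) = 1 / (I * P) - s / (I * (s + q) * P) := by
      have e4 : (s + q) / (I * (s + q) * P) = 1 / (I * P) := by
        rw [show I * (s + q) * P = (s + q) * (I * P) by ring, ← div_div, div_self hF0]
      rw [← e4, ← sub_div]
      congr 1
      ring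
    calc (-1) ^ ρ.card * (vol ρ : ℝ) ^ 2 * q / (I * (s + q) * P)
        = (-1) ^ ρ.card * (vol ρ : ℝ) ^ 2 * (q / (I * (s + q) * P)) := by ring
      _ = _ := by rw [e3, ← hD]; ring

end Mono.CI.S4
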